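import Pool.Agent.TH519.HS.SkC

/-!
# Almost all skew-symmetric matrices of logarithms satisfy Roy's conjecture

Roy's conjecture (Q1) says that a skew-symmetric `4 × 4` matrix `M` of logarithms of algebraic
numbers of rank at most `2` has rows which are linearly dependent over `ℚ`, or its column space
contains a nonzero vector of `ℚ ^ 4`. The coordinates of such a matrix are a point of the Klein
quadric `x₀ x₅ - x₁ x₄ + x₂ x₃ = 0` in the `6`-dimensional space of the skew-symmetric matrices, and
the alternative holds if and only if the point lies on a subspace which is defined over `ℚ` and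
contained in the quadric: these subspaces have dimension at most `3`. We show that the other points
are rare, in two senses.

* Dimension. Let `W` be a space of finite dimension `N` over the field `ℚ̄` of the algebraic numbers,
  which consists of linear forms in `1` and logarithms of algebraic numbers. The skew-symmetric
  matrices over `W` form a space of dimension `6 N`. Those of rank at most `2` which satisfy the
  alternative over `ℚ̄` form a set of dimension `3 N + 3` for large `N`. We show that those of rank at
  most `2` which violate it lie in an algebraic subset of dimension at most `N + 48`. (A set lies in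
  an algebraic subset of dimension at most `d` if and only if any `d + 1` linear forms satisfy a
  nontrivial polynomial relation on it.)
* Counting. Let `l_1, ..., l_N` be logarithms of algebraic numbers which are linearly independent
  over `ℚ`, for example the logarithms of `N` prime numbers. Among the skew-symmetric matrices with
  entries `∑ A_ijk l_k`, where the `A_ijk` are integers of absolute value at most `H`, at least
  `H ^ (3 N)` have rank at most `2`, and at most `κ H ^ (N + 48)` of them violate Roy's conjecture.
  So for `N > 24` the proportion of the counterexamples tends to `0` as `H → ∞`.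

The proof: consider a point `x` of the quadric over an ultrapower of `ℚ̄` (coordinates with respect
to a basis of `W`), and let `U` be the smallest subspace of the `6`-dimensional space over the field
`K` of coefficients such that `x` is a point of `U`. If the quadratic form vanishes on `U`, then the
alternative holds, as pairwise intersecting lines are concurrent or coplanar (`HS.Sk`). If it does
not, then its restriction to `U` has rank at least `3`, because a quadratic form of rank `1` or `2`
over an algebraically closed field is a product of linear forms, and the coordinates of `x` with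
respect to a basis of `U` are linearly independent (`HS.Qf`). It follows that the radical of the
restriction has dimension at most `1` (`HS.Qf2`). The derivations of the ultrapower of `ℂ` which
vanish on `ℂ` (`FE.Ops`) and on the coefficients of linear equations of `U` map `x` to tangent
vectors in `U` orthogonal to `x`, and the hyperplane case of the linear subgroup theorem of
Waldschmidt and Roy (`W254.HP`) allows for at most `6 · 5 + N` independent ones (`HS.Qf3`), while
`18` coefficients suffice for the equations. The second part follows by a linear Noether
normalisation with bounded fibres (`HS.Cnt`). The method gives for every nondegenerate quadratic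
form in `m` variables over `ℚ̄` that the zeros over `W` which are not in a totally isotropic
subspace have dimension at most `⌊(m - 3) / 2⌋ N + m (m - 1) + m (m - 3)` (`HS.quad_coord`).
-/

set_option autoImplicit false

namespace Pool.Agent.Results.MP_3e7261_nt.AlmostAllSkew

/-- The space of all linear combinations, with algebraic coefficients, of `1` and of logarithms of
algebraic numbers. -/
noncomputable def LogForms : Submodule (algebraicClosure ℚ ℂ) ℂ :=
  Submodule.span (algebraicClosure ℚ ℂ) ({1} ∪ {z : ℂ | IsAlgebraic ℚ (Complex.exp z)})

/-- The conclusion of Roy's conjecture with a field `K` in place of `ℚ`: the rows of `M` are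
linearly dependent over `K`, or the column space of `M` contains a nonzero vector with coordinates
in `K`. -/
def RoyAlternative (K : Type) [Field K] [Algebra K ℂ] (M : Matrix (Fin 4) (Fin 4) ℂ) : Prop :=
  (¬ LinearIndependent K (fun i : Fin 4 => (M i : Fin 4 → ℂ))) ∨
    ∃ v : Fin 4 → K, v ≠ 0 ∧ (fun i => algebraMap K ℂ (v i)) ∈ LinearMap.range M.mulVecLin

/-- The matrix with the entries `∑ k, A i j k * l k`. -/
noncomputable def logMatrix {N : ℕ} (l : Fin N → ℂ) (A : Fin 4 → Fin 4 → Fin N → ℤ) :
    Matrix (Fin 4) (Fin 4) ℂ :=
  Matrix.of fun i j => ∑ k, (A i j k : ℂ) * l k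

/-- The integer coordinates, of absolute value at most `H`, of skew-symmetric matrices of rank at
most two. -/
def SkewRankTwo {N : ℕ} (l : Fin N → ℂ) (H : ℕ) : Set (Fin 4 → Fin 4 → Fin N → ℤ) :=
  {A | (∀ i j k, |A i j k| ≤ H) ∧ (logMatrix l A).transpose = -logMatrix l A ∧
    (logMatrix l A).rank ≤ 2}

/-- **Main result.** -/
theorem result :
    (∀ (W : Submodule (algebraicClosure ℚ ℂ) ℂ) [FiniteDimensional (algebraicClosure ℚ ℂ) W],
      W ≤ LogForms →
      ∀ φ : Fin (Module.finrank (algebraicClosure ℚ ℂ) W + 49) →
        (Matrix (Fin 4) (Fin 4) W →ₗ[algebraicClosure ℚ ℂ] algebraicClosure ℚ ℂ),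
      ∃ P : MvPolynomial (Fin (Module.finrank (algebraicClosure ℚ ℂ) W + 49))
          (algebraicClosure ℚ ℂ), P ≠ 0 ∧
        ∀ A : Matrix (Fin 4) (Fin 4) W, A.transpose = -A →
          (A.map (fun w => (w : ℂ))).rank ≤ 2 →
          ¬ RoyAlternative (algebraicClosure ℚ ℂ) (A.map (fun w => (w : ℂ))) →
          MvPolynomial.eval (fun k => φ k A) P = 0) ∧
    ∀ (N : ℕ) (l : Fin N → ℂ), (∀ k, IsAlgebraic ℚ (Complex.exp (l k))) →
      LinearIndependent ℚ l →
      ∃ κ : ℕ, ∀ H : ℕ, 1 ≤ H →
        Set.ncard {A ∈ SkewRankTwo l H | ¬ RoyAlternative ℚ (logMatrix l A)} ≤
          κ * H ^ (N + 48) ∧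
        H ^ (3 * N) ≤ Set.ncard (SkewRankTwo l H) := by
  refine ⟨fun W _ hW φ => Pool.Agent.TH519.HS.skew_dim W hW φ, fun N l halg hli => ?_⟩
  obtain ⟨κ, hκ⟩ := Pool.Agent.TH519.HS.skew_upper l halg hli
  refine ⟨κ, fun H hH => ⟨?_, Pool.Agent.TH519.HS.skew_lower l H⟩⟩
  refine le_trans (le_of_eq ?_) (hκ H hH)
  congr 1
  ext A
  constructor
  · rintro ⟨⟨h1, h2, h3⟩, h4⟩
    exact ⟨h1, h2, h3, h4⟩
  · rintro ⟨h1, h2, h3, h4⟩
    exact ⟨⟨h1, h2, h3⟩, h4⟩

end Pool.Agent.Results.MP_3e7261_nt.AlmostAllSkew
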